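import Pool.Agent.Helper12.MA.StB
import Pool.Agent.Helper12.MA.Lib

/-!
# Project MA, module OTY: cofacial with both ends, or a cut
-/

set_option autoImplicit false

namespace Pool.Agent.Helper24.MA

open Pool.Agent.Helper12.MA
open Pool.Agent.Helper51.AJ (IsMinor Planar Apex ExMinor Con Tch)
open Pool.Agent.Helper12.NK (rst Kc add cnt Pcy IsFace Cof plus)

variable {V : Type}

private theorem split_of_not_con {H : SimpleGraph V} {W : Set V} {p : V} (hp : p ∈ W) (h : ¬ Con H W) :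
    ∃ X Y : Set V, X ∪ Y = W ∧ Disjoint X Y ∧ p ∈ X ∧ Y.Nonempty ∧ ∀ a ∈ X, ∀ b ∈ Y, ¬ H.Adj a b := by
  let X : Set V := {x | ∃ hx : x ∈ W, (H.induce W).Reachable ⟨p, hp⟩ ⟨x, hx⟩}
  have hXW : X ⊆ W := fun x hx => hx.1
  refine ⟨X, W \ X, Set.union_diff_cancel hXW, Set.disjoint_sdiff_right, ⟨hp, SimpleGraph.Reachable.refl _⟩, ?_, ?_⟩
  · by_contra hY
    rw [Set.not_nonempty_iff_eq_empty, Set.diff_eq_empty] at hY
    apply h
    have hne : Nonempty W := ⟨⟨p, hp⟩⟩
    have hr : ∀ x : W, (H.induce W).Reachable ⟨p, hp⟩ x := fun x => (hY x.2).2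
    exact ⟨fun x y => (hr x).symm.trans (hr y)⟩
  · rintro a ⟨ha, hra⟩ b ⟨hb, hnb⟩ hab
    apply hnb
    refine ⟨hb, hra.trans (SimpleGraph.Adj.reachable ?_)⟩
    exact hab

private theorem edge_of_con {G : SimpleGraph V} {W X Y : Set V} (h : Con G W) (hW : X ∪ Y = W)
    {x y : V} (hx : x ∈ X) (hy : y ∈ Y) (hd : Disjoint X Y) : ∃ a ∈ X, ∃ b ∈ Y, G.Adj a b := by
  have hxW : x ∈ W := hW ▸ Or.inl hx
  have hyW : y ∈ W := hW ▸ Or.inr hy
  obtain ⟨w⟩ := h.preconnected ⟨x, hxW⟩ ⟨y, hyW⟩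
  obtain ⟨d, -, h1, h2⟩ := w.exists_boundary_dart {u : W | u.1 ∈ X} hx
    (fun h' => Set.disjoint_left.1 hd h' hy)
  refine ⟨d.fst.1, h1, d.snd.1, ?_, d.adj⟩
  have h3 : d.snd.1 ∈ X ∪ Y := by rw [hW]; exact d.snd.2
  exact h3.resolve_left h2

private theorem cof_symm {M : SimpleGraph V} {U : Set V} {a b : V} (h : Cof M U a b) : Cof M U b a := by
  obtain ⟨F, h1, h2, h3⟩ := h
  exact ⟨F, h1, h3, h2⟩

theorem hOTY (hEDG : StEDG) (hBAS : StBAS) : StOTY := by
  intro V _ G z v p q r r' f1 f2 f3 f4 hC t htv htz htp htq hpl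
  have hbh := hC.bh
  have hds := hC.ds
  obtain ⟨-, -, -, -, b5, -, -⟩ := hBAS V G hbh
  have hvp : v ≠ p := hds.ne.1
  have hvq : v ≠ q := hds.ne.2.1
  have hpq : G.Adj p q := hds.pq
  have hpq' : p ≠ q := hds.ne.2.2.2.2.1
  have hK : Kc 3 (dl G p q) {v}ᶜ := b5 v p q
  have hPl : Planar (rst (dl G p q) {v}ᶜ) := hds.pl
  have hUt : ({v}ᶜ : Set V) \ {t} = {t, v}ᶜ := by
    ext x
    simp only [Set.mem_diff, Set.mem_compl_iff, Set.mem_singleton_iff, Set.mem_insert_iff, not_or]
    tauto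
  have ae_dl : ∀ a b, (ae (dl G p q) p q).Adj a b ↔ G.Adj a b := by
    intro a b
    constructor
    · rintro (h | ⟨-, ⟨rfl, rfl⟩ | ⟨rfl, rfl⟩⟩)
      · exact h.1
      · exact hpq
      · exact hpq.symm
    · intro h
      by_cases h1 : a = p ∧ b = q
      · exact Or.inr ⟨G.ne_of_adj h, Or.inl h1⟩
      · by_cases h2 : a = q ∧ b = p
        · exact Or.inr ⟨G.ne_of_adj h, Or.inr h2⟩
        · exact Or.inl ⟨h, h1, h2⟩
  have ae_eq : ae (dl G p q) p q = G := by
    ext a b
    exact ae_dl a b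
  by_cases hKt : Kc 3 (dl G p q) ({v}ᶜ \ {t})
  · left
    have hmono := (Pool.Agent.Helper12.MA.nKCA V G {v}ᶜ).2.2.2.2.2.1
    have hPt : Planar (rst (dl G p q) ({v}ᶜ \ {t})) := by
      refine hmono _ _ ?_ hPl
      intro a b h
      exact ⟨h.1, h.2.1.1, h.2.2.1⟩
    have hPn : Pn (dl G p q) ({v}ᶜ \ {t}) := ⟨hKt, hPt⟩
    have hp : p ∈ ({v}ᶜ : Set V) \ {t} := ⟨fun h => hvp (Set.mem_singleton_iff.1 h).symm,
      fun h => htp (Set.mem_singleton_iff.1 h).symm⟩
    have hq : q ∈ ({v}ᶜ : Set V) \ {t} := ⟨fun h => hvq (Set.mem_singleton_iff.1 h).symm,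
      fun h => htq (Set.mem_singleton_iff.1 h).symm⟩
    have ho : t ∉ ({v}ᶜ : Set V) \ {t} := fun h => h.2 rfl
    have h1 : Planar (rst (ae (dl G p q) p q) ({v}ᶜ \ {t})) := by
      rw [ae_eq, hUt]
      exact hpl
    obtain ⟨F', hF', hpF, hqF⟩ := (hEDG V (dl G p q) _ p q t hPn hp hq hpq' ho).1 h1
    rcases Pool.Agent.Helper12.MA.nFDL V (dl G p q) {v}ᶜ t hK hKt hPl F' hF' with h2 | h2
    · exact absurd ⟨F', h2, hpF, hqF⟩ hC.npq
    · exact ⟨cof_symm (h2 p hpF), cof_symm (h2 q hqF)⟩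
  · right
    -- the separating set
    have hcard : 3 < ((({v}ᶜ : Set V) \ {t})).ncard := by
      have h1 : ({t, v} : Set V).ncard ≤ 2 := by
        have := Set.ncard_insert_le t ({v} : Set V)
        rw [Set.ncard_singleton] at this
        exact this
      have h2 := Set.ncard_add_ncard_compl ({t, v} : Set V)
      have h3 := hbh.n8
      rw [hUt]
      omega
    have hex : ∃ X : Set V, X.ncard < 3 ∧ ¬ Con (dl G p q) ((({v}ᶜ : Set V) \ {t}) \ X) := by
      by_contra hno
      push Not at hno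
      exact hKt ⟨hcard, hno⟩
    obtain ⟨X₀, hX₀, hnc⟩ := hex
    -- the complement of the four vertices
    have hWeq : ((({v}ᶜ : Set V) \ {t}) \ X₀) = ({v, t} ∪ X₀)ᶜ := by
      ext x
      simp only [Set.mem_diff, Set.mem_compl_iff, Set.mem_singleton_iff, Set.mem_union,
        Set.mem_insert_iff, not_or, and_assoc]
    have h2vt : ({v, t} : Set V).ncard = 2 := Set.ncard_pair (Ne.symm htv)
    have hQ4 : ({v, t} ∪ X₀ : Set V).ncard ≤ 4 := by
      have := Set.ncard_union_le ({v, t} : Set V) X₀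
      omega
    have hGW : Con G (({v, t} ∪ X₀ : Set V)ᶜ) := hbh.kc _ hQ4
    rw [hWeq] at hnc
    -- `X₀` has two elements, not `t`, not `v`
    have hbig : ∀ Y : Set V, ({v}ᶜ : Set V) \ Y = ({v, t} ∪ X₀ : Set V)ᶜ → 3 ≤ Y.ncard := by
      intro Y hY
      by_contra hlt
      rw [not_le] at hlt
      have := hK.2 Y hlt
      rw [hY] at this
      exact hnc this
    have hvX : v ∉ X₀ := by
      intro hv
      have h1 := hbig (insert t (X₀ \ {v})) (by
        ext x
        simp only [Set.mem_diff, Set.mem_compl_iff, Set.mem_singleton_iff, Set.mem_union,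
          Set.mem_insert_iff, not_or, not_and, not_not]
        constructor
        · rintro ⟨h1, h2, h3⟩
          exact ⟨⟨h1, h2⟩, fun h => h1 (h3 h)⟩
        · rintro ⟨⟨h1, h2⟩, h3⟩
          exact ⟨h1, h2, fun h => absurd h h3⟩)
      have h2 := Set.ncard_insert_le t (X₀ \ {v})
      have h3 := Set.ncard_diff_singleton_lt_of_mem hv
      omega
    have htX : t ∉ X₀ := by
      intro ht
      have h1 := hbig X₀ (by
        ext x
        simp only [Set.mem_diff, Set.mem_compl_iff, Set.mem_singleton_iff, Set.mem_union,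
          Set.mem_insert_iff, not_or]
        constructor
        · rintro ⟨h1, h2⟩
          exact ⟨⟨h1, fun h => h2 (h ▸ ht)⟩, h2⟩
        · rintro ⟨⟨h1, -⟩, h2⟩
          exact ⟨h1, h2⟩)
      omega
    have hX2 : X₀.ncard = 2 := by
      have h1 := hbig (insert t X₀) (by
        ext x
        simp only [Set.mem_diff, Set.mem_compl_iff, Set.mem_singleton_iff, Set.mem_union,
          Set.mem_insert_iff, not_or, and_assoc])
      have h2 := Set.ncard_insert_le t X₀
      omega
    have hQcard : ({v, t} ∪ X₀ : Set V).ncard = 4 := by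
      have hd : Disjoint ({v, t} : Set V) X₀ := by
        rw [Set.disjoint_left]
        intro x hx
        rcases hx with rfl | hx
        · exact hvX
        · rw [Set.mem_singleton_iff.1 hx]
          exact htX
      rw [Set.ncard_union_eq hd, h2vt, hX2]
    -- `p` is in the rest
    have hagree : ∀ W : Set V, (p ∉ W ∨ q ∉ W) → (Con G W ↔ Con (dl G p q) W) := by
      intro W hW
      refine (Pool.Agent.Helper12.MA.nKCA V G {v}ᶜ).2.2.2.2.1 (dl G p q) W ?_
      intro a ha b hb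
      constructor
      · intro h
        refine ⟨h, ?_, ?_⟩
        · rintro ⟨rfl, rfl⟩
          rcases hW with h' | h'
          · exact h' ha
          · exact h' hb
        · rintro ⟨rfl, rfl⟩
          rcases hW with h' | h'
          · exact h' hb
          · exact h' ha
      · exact fun h => h.1
    have hpW : p ∈ (({v, t} ∪ X₀ : Set V)ᶜ) := by
      by_contra h
      exact hnc ((hagree _ (Or.inl h)).1 hGW)
    obtain ⟨X, Y, hXY, hdis, hpX, ⟨y, hy⟩, hno⟩ := split_of_not_con hpW hnc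
    have honly : ∀ a ∈ X, ∀ b ∈ Y, G.Adj a b → a = p ∧ b = q := by
      intro a ha b hb hab
      by_contra hne
      apply hno a ha b hb
      refine ⟨hab, hne, ?_⟩
      rintro ⟨rfl, rfl⟩
      exact Set.disjoint_left.1 hdis hpX hb
    have hqY : q ∈ Y := by
      obtain ⟨a, ha, b, hb, hab⟩ := edge_of_con hGW hXY hpX hy hdis
      rw [← (honly a ha b hb hab).2]
      exact hb
    have hzp : G.Adj z p := (hds.nb p).2 (Or.inr (Or.inl rfl))
    have hzq : G.Adj z q := (hds.nb q).2 (Or.inr (Or.inr (Or.inl rfl)))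
    have hzv : z ≠ v := G.ne_of_adj ((hds.nb v).2 (Or.inl rfl))
    have hzX : z ∈ X₀ := by
      by_contra hz
      have hzW : z ∈ X ∪ Y := by
        rw [hXY]
        intro h
        rcases h with (h | h) | h
        · exact hzv h
        · exact htz (Set.mem_singleton_iff.1 h).symm
        · exact hz h
      rcases hzW with h | h
      · exact G.ne_of_adj hzp (honly z h q hqY hzq).1
      · exact G.ne_of_adj hzq (honly p hpX z h hzp.symm).2
    obtain ⟨a, b, hab, hX₀eq⟩ := Set.ncard_eq_two.1 hX2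
    have hfin : ∃ b, ({v, t} ∪ X₀ : Set V) = {v, z, t, b} := by
      rw [hX₀eq] at hzX ⊢
      rcases hzX with rfl | h
      · refine ⟨b, ?_⟩
        ext x
        simp only [Set.mem_union, Set.mem_insert_iff, Set.mem_singleton_iff]
        tauto
      · rw [Set.mem_singleton_iff] at h
        subst h
        refine ⟨a, ?_⟩
        ext x
        simp only [Set.mem_union, Set.mem_insert_iff, Set.mem_singleton_iff]
        tauto
    obtain ⟨b', hb'⟩ := hfin
    rw [hb'] at hQcard hXY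
    exact ⟨b', X, Y, hQcard, hXY, hdis, hpX, hqY, hpq, honly⟩

end Pool.Agent.Helper24.MA
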